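import Pool.Agent.H2.JT.Str

/-!
# The structure of the continua for which Jones's set function is continuous

A continuum is a compact connected Hausdorff space.  The set function `T` of F. B. Jones is continuous for a
continuum `S` if and only if there is an open monotone map `q` of `S` onto a locally connected continuum such
that `T(A) = q⁻¹(q(A))` for all closed `A`; and if and only if there is an open monotone map `q` of `S` onto a
locally connected continuum such that every subcontinuum of `S` contains the fibres of its interior points.  In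
this case `S` is indecomposable as soon as one set `T(p)`, or one indecomposable subcontinuum of `S`, has
interior points.
-/

set_option autoImplicit false

universe u

namespace Pool.Agent.Results.MP_3a3191_gt.OpenMonotoneImage

open Set Topology TopologicalSpace

/-- Jones's set function: `T(A)` is the complement of the set of all points `p` for which there is a
subcontinuum `W` with `p ∈ int W` and `W ∩ A = ∅`. -/
def jonesT {S : Type u} [TopologicalSpace S] (A : Set S) : Set S :=
  {p : S | ∃ W : Set S, IsClosed W ∧ IsConnected W ∧ p ∈ interior W ∧ W ∩ A = ∅}ᶜ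

/-- `T` is continuous for `S`: for closed (that is, compact) `A` the set `T(A)` is closed, and the map
`A ↦ T(A)` of the hyperspace of the closed subsets of `S` into itself is continuous. The type `Compacts S` of
the compact subsets of `S` carries the Vietoris topology. -/
def TContinuous (S : Type u) [TopologicalSpace S] : Prop :=
  ∃ F : Compacts S → Compacts S, (∀ A : Compacts S, (F A : Set S) = jonesT (A : Set S)) ∧ Continuous F

/-- `S` is indecomposable: it is not the union of two proper subcontinua. -/
def Indecomposable (S : Type u) [TopologicalSpace S] : Prop :=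
  ¬ ∃ A B : Set S, IsClosed A ∧ IsConnected A ∧ A ≠ univ ∧ IsClosed B ∧ IsConnected B ∧
    B ≠ univ ∧ A ∪ B = univ

/-- `Q` is a locally connected continuum. -/
def IsLocallyConnectedContinuum (Q : Type u) [TopologicalSpace Q] : Prop :=
  CompactSpace Q ∧ T2Space Q ∧ ConnectedSpace Q ∧ LocallyConnectedSpace Q

/-- `q` is an open monotone map of `S` onto `Q`: continuous, open and onto, with connected fibres. -/
def IsOpenMonotone {S Q : Type u} [TopologicalSpace S] [TopologicalSpace Q] (q : S → Q) : Prop :=
  Continuous q ∧ IsOpenMap q ∧ Function.Surjective q ∧ ∀ y : Q, IsConnected (q ⁻¹' {y})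

section

variable {S : Type u} [TopologicalSpace S]

theorem jonesT_eq (A : Set S) : jonesT A = Pool.Agent.Helper300.JonesT.T A := by
  ext p
  rw [jonesT, mem_compl_iff, ← not_iff_not, not_not, Pool.Agent.Helper300.JonesT.notMem_T]
  simp only [mem_ofPred_eq, mem_interior_iff_mem_nhds, disjoint_iff_inter_eq_empty]

theorem lsc_of_continuous [CompactSpace S] [T2Space S] (h : TContinuous S) :
    Pool.Agent.Helper300.JonesT.LSC S := by
  obtain ⟨F, hF, hc⟩ := h
  apply Pool.Agent.Helper300.JonesT.LSC_of_continuousOn
  let _ : TopologicalSpace (Set S) := TopologicalSpace.vietoris S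
  rw [continuousOn_iff_continuous_domRestrict]
  let g : {A : Set S | IsClosed A ∧ A.Nonempty} → Compacts S := fun A => ⟨A.1, A.2.1.isCompact⟩
  have hg : Continuous g := by
    rw [Compacts.isEmbedding_coe.continuous_iff]
    exact continuous_subtype_val
  have h1 : Continuous fun A => ((F (g A) : Compacts S) : Set S) :=
    Compacts.continuous_coe.comp (hc.comp hg)
  convert h1 using 2 with A
  ext A
  rw [hF, jonesT_eq]
  rfl

theorem continuous_of_lsc [CompactSpace S] [T2Space S]
    (h : ∀ U : Set S, IsOpen U → ∃ V : Set S, IsOpen V ∧ ∀ A : Set S, IsClosed A →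
      ((jonesT A ∩ U).Nonempty ↔ (A ∩ V).Nonempty)) : TContinuous S := by
  have hcl : ∀ A : Set S, IsClosed (jonesT A) := fun A => by
    rw [jonesT_eq]
    exact Pool.Agent.Helper300.JonesT.isClosed_T A
  refine ⟨fun A => ⟨jonesT (A : Set S), (hcl _).isCompact⟩, fun A => rfl, ?_⟩
  let _ : TopologicalSpace (Set S) := TopologicalSpace.vietoris S
  rw [Compacts.isEmbedding_coe.continuous_iff]
  rw [continuous_generateFrom_iff]
  rintro _ (⟨U, hU, rfl⟩ | ⟨U, hU, rfl⟩)
  · rw [isOpen_iff_mem_nhds]
    intro A hA
    have hA' : Pool.Agent.Helper300.JonesT.T (A : Set S) ⊆ U := by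
      rw [← jonesT_eq]
      exact hA
    obtain ⟨V, hV1, hV2, hV3⟩ := Pool.Agent.Helper300.JonesT.T_usc (S := S) hU hA'
    filter_upwards [(Compacts.isOpen_subsets_of_isOpen hV1).mem_nhds hV2] with B hB
    change jonesT (B : Set S) ⊆ U
    rw [jonesT_eq]
    exact hV3 _ hB
  · obtain ⟨V, hV1, hV2⟩ := h U hU
    have : (((fun A : Compacts S => (A : Set S)) ∘ fun A : Compacts S =>
        (⟨jonesT (A : Set S), (hcl _).isCompact⟩ : Compacts S)) ⁻¹'
          {s : Set S | (s ∩ U).Nonempty}) = {A : Compacts S | ((A : Set S) ∩ V).Nonempty} := by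
      ext A
      exact hV2 A A.isCompact.isClosed
    exact this ▸ Compacts.isOpen_inter_nonempty_of_isOpen hV1

/-- The map-only condition implies `T(A) = q⁻¹(q(A))`. -/
theorem jonesT_of_fibres {Q : Type u} [TopologicalSpace Q] [CompactSpace S] [T2Space S]
    [ConnectedSpace S] {q : S → Q} (hQ : IsLocallyConnectedContinuum Q) (hq : IsOpenMonotone q)
    (h : ∀ W : Set S, IsClosed W → IsConnected W → ∀ p ∈ interior W, q ⁻¹' {q p} ⊆ W)
    (A : Set S) (hA : IsClosed A) : jonesT A = q ⁻¹' (q '' A) := by
  obtain ⟨hQ1, hQ2, hQ3, hQ4⟩ := hQ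
  rw [jonesT_eq]
  apply Subset.antisymm
  · exact Pool.Agent.H2.JT.T_subset_of_map hq.1 hq.2.2.1 hq.2.2.2 hA
  · rintro p ⟨a, ha, hap⟩
    intro W hW1 hW2 hW3
    exact ⟨a, h W hW1 hW2 p (mem_interior_iff_mem_nhds.2 hW3) hap, ha⟩

theorem fibres_of_jonesT {Q : Type u} [TopologicalSpace Q] [T1Space S] {q : S → Q}
    (h : ∀ A : Set S, IsClosed A → jonesT A = q ⁻¹' (q '' A))
    (W : Set S) (hW1 : IsClosed W) (hW2 : IsConnected W) (p : S) (hp : p ∈ interior W) :
    q ⁻¹' {q p} ⊆ W := by
  intro z hz
  by_contra hcon
  have h1 : p ∈ jonesT ({z} : Set S) := by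
    rw [h _ isClosed_singleton]
    exact ⟨z, rfl, hz⟩
  exact h1 ⟨W, hW1, hW2, hp, inter_singleton_eq_empty.2 hcon⟩

end

/-- **The structure of the continua with continuous `T`.** Let `S` be a continuum.

1. (The question.) If `T` is continuous for `S` and some `T(p)` has nonempty interior, then `S` is
indecomposable.
2. If `T` is continuous for `S`, then the following are equivalent: `S` is indecomposable; some `T(p)` has
nonempty interior; some indecomposable subcontinuum of `S` has nonempty interior.
3. The following are equivalent: `T` is continuous for `S`; there is an open monotone map `q` of `S` onto a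
locally connected continuum with `T(A) = q⁻¹(q(A))` for all closed `A`; there is an open monotone map `q` of `S`
onto a locally connected continuum such that every subcontinuum `W` of `S` contains the fibre of `q` through each
interior point of `W`; the map `x ↦ T(x)` is lower semicontinuous and `T(A)` is the union of the sets `T(a)`,
`a ∈ A`, for all closed `A`. -/
theorem result (S : Type u) [TopologicalSpace S] [CompactSpace S] [T2Space S] [ConnectedSpace S] :
    (TContinuous S → (∃ p : S, (interior (jonesT ({p} : Set S))).Nonempty) → Indecomposable S) ∧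
    (TContinuous S → [Indecomposable S,
      ∃ p : S, (interior (jonesT ({p} : Set S))).Nonempty,
      ∃ K : Set S, IsClosed K ∧ IsConnected K ∧ (interior K).Nonempty ∧ Indecomposable K].TFAE) ∧
    [TContinuous S,
      ∃ (Q : Type u) (_ : TopologicalSpace Q) (q : S → Q), IsLocallyConnectedContinuum Q ∧
        IsOpenMonotone q ∧ ∀ A : Set S, IsClosed A → jonesT A = q ⁻¹' (q '' A),
      ∃ (Q : Type u) (_ : TopologicalSpace Q) (q : S → Q), IsLocallyConnectedContinuum Q ∧
        IsOpenMonotone q ∧
        ∀ W : Set S, IsClosed W → IsConnected W → ∀ p ∈ interior W, q ⁻¹' {q p} ⊆ W,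
      (∀ U : Set S, IsOpen U → IsOpen {x : S | (jonesT ({x} : Set S) ∩ U).Nonempty}) ∧
        ∀ A : Set S, IsClosed A → jonesT A = ⋃ a ∈ A, jonesT ({a} : Set S)].TFAE := by
  have hdec : TContinuous S → ∃ (Q : Type u) (_ : TopologicalSpace Q) (q : S → Q),
      IsLocallyConnectedContinuum Q ∧ IsOpenMonotone q ∧
        ∀ A : Set S, IsClosed A → jonesT A = q ⁻¹' (q '' A) := by
    intro h
    obtain ⟨Q, hQ, q, h1, h2, h3, h4, h5, h6, h7, h8, h9⟩ :=
      Pool.Agent.H2.JT.decomposition (lsc_of_continuous h)
    refine ⟨Q, hQ, q, ⟨h1, h2, h3, h4⟩, ⟨h5, h6, h7, h8⟩, fun A hA => ?_⟩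
    rw [jonesT_eq]
    exact h9 A hA
  have hQ1 : TContinuous S → (∃ p : S, (interior (jonesT ({p} : Set S))).Nonempty) →
      ∀ x : S, jonesT ({x} : Set S) = univ := by
    rintro h ⟨p, hp⟩ x
    rw [jonesT_eq] at hp ⊢
    exact Pool.Agent.Helper300.JonesT.T_eq_univ (lsc_of_continuous h) hp x
  have hind : (∀ x : S, jonesT ({x} : Set S) = univ) → Indecomposable S := by
    rintro h ⟨A, B, hA, hAc, hA1, hB, hBc, hB1, hAB⟩
    obtain ⟨x, hx⟩ := (ne_univ_iff_exists_notMem A).1 hA1
    obtain ⟨y, hy⟩ := (ne_univ_iff_exists_notMem B).1 hB1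
    have h1 : y ∈ jonesT ({x} : Set S) := by
      rw [h x]
      exact mem_univ y
    apply h1
    refine ⟨A, hA, hAc, ?_, inter_singleton_eq_empty.2 hx⟩
    rw [mem_interior]
    refine ⟨Bᶜ, fun z hz => ?_, hB.isOpen_compl, hy⟩
    have h2 : z ∈ A ∪ B := by
      rw [hAB]
      exact mem_univ z
    exact h2.resolve_right hz
  refine ⟨fun h hp => hind (hQ1 h hp), ?_, ?_⟩
  · intro h
    have hu : ∀ x : S, (univ : Set S).Nonempty := fun x => ⟨x, mem_univ x⟩
    obtain ⟨x0⟩ : Nonempty S := inferInstance
    tfae_have 1 → 2 := by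
      intro hS
      refine ⟨x0, ?_⟩
      rw [jonesT_eq, Pool.Agent.H2.JT.T_univ_of_indec hS x0, interior_univ]
      exact hu x0
    tfae_have 2 → 3 := by
      intro hp
      have hS : Indecomposable S := hind (hQ1 h hp)
      refine ⟨univ, isClosed_univ, isConnected_univ, by rw [interior_univ]; exact hu x0, ?_⟩
      rintro ⟨A, B, hA, hAc, hA1, hB, hBc, hB1, hAB⟩
      apply hS
      have hval : ∀ C : Set (univ : Set S), C ≠ univ → Subtype.val '' C ≠ univ := by
        intro C hC hcon
        apply hC
        rw [eq_univ_iff_forall]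
        intro z
        have : z.1 ∈ Subtype.val '' C := by rw [hcon]; exact mem_univ _
        obtain ⟨w, hw, hwz⟩ := this
        rwa [← Subtype.ext hwz]
      refine ⟨Subtype.val '' A, Subtype.val '' B,
        isClosed_univ.isClosedEmbedding_subtypeVal.isClosedMap _ hA,
        hAc.image _ continuous_subtype_val.continuousOn, hval A hA1,
        isClosed_univ.isClosedEmbedding_subtypeVal.isClosedMap _ hB,
        hBc.image _ continuous_subtype_val.continuousOn, hval B hB1, ?_⟩
      rw [← image_union, hAB, image_univ, Subtype.range_val]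
    tfae_have 3 → 1 := by
      rintro ⟨K, hK1, hK2, ⟨p, hp⟩, hK⟩
      obtain ⟨Q, _, q, hQ, hq, hT⟩ := hdec h
      have hfib := fibres_of_jonesT hT
      obtain ⟨hQc, hQ2, hQconn, hQl⟩ := hQ
      by_cases hone : ∀ p' ∈ interior K, q p' = q p
      · -- `T(p)` contains the interior of `K`
        apply hind
        apply hQ1 h
        refine ⟨p, p, ?_⟩
        rw [mem_interior]
        refine ⟨interior K, ?_, isOpen_interior, hp⟩
        intro z hz
        rw [hT _ isClosed_singleton]
        exact ⟨p, rfl, (hone z hz).symm⟩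
      · push Not at hone
        obtain ⟨p', hp', hne⟩ := hone
        exfalso
        -- a small connected neighbourhood of `q p`
        have hO : IsOpen (q '' interior K ∩ {q p'}ᶜ) :=
          (hq.2.1 _ isOpen_interior).inter isClosed_singleton.isOpen_compl
        have hn : q '' interior K ∩ {q p'}ᶜ ∈ 𝓝 (q p) :=
          hO.mem_nhds ⟨⟨p, hp, rfl⟩, fun hcon => hne hcon.symm⟩
        obtain ⟨C, hC1, hC2, hC3⟩ := exists_mem_nhds_isClosed_subset hn
        obtain ⟨V, hV1, hV2, hV3⟩ :=
          locallyConnectedSpace_iff_connected_subsets.1 inferInstance _ C hC1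
        have hVc : IsConnected (closure V) := IsConnected.closure ⟨⟨_, mem_of_mem_nhds hV1⟩, hV2⟩
        have hVO : closure V ⊆ q '' interior K ∩ {q p'}ᶜ := (closure_minimal hV3 hC2).trans hC3
        have hM := Pool.Agent.H2.JT.conn_preimage hq.1 hq.2.2.1 hq.2.2.2 isClosed_closure hVc
        have hMcl : IsClosed (q ⁻¹' closure V) := isClosed_closure.preimage hq.1
        have hMn : q ⁻¹' closure V ∈ 𝓝 p :=
          hq.1.continuousAt (Filter.mem_of_superset hV1 subset_closure)
        have hpM : p ∈ q ⁻¹' closure V := mem_of_mem_nhds hMn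
        have hMK : q ⁻¹' closure V ⊆ K := by
          intro z hz
          obtain ⟨⟨w, hw, hwz⟩, _⟩ := hVO hz
          exact hfib K hK1 hK2 w hw hwz.symm
        have hpM' : p' ∉ q ⁻¹' closure V := fun hcon => (hVO hcon).2 rfl
        have hKc : CompactSpace K := isCompact_iff_compactSpace.1 hK1.isCompact
        have hKconn : ConnectedSpace K := isConnected_iff_connectedSpace.1 hK2
        have h1 := Pool.Agent.H2.JT.T_univ_of_indec hK ⟨p', interior_subset hp'⟩
        have h2 : (⟨p, interior_subset hp⟩ : K) ∈ Pool.Agent.Helper300.JonesT.T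
            ({⟨p', interior_subset hp'⟩} : Set K) := by
          rw [h1]
          exact mem_univ _
        obtain ⟨w, hw1, hw2⟩ := h2 (Subtype.val ⁻¹' (q ⁻¹' closure V))
          (hMcl.preimage continuous_subtype_val)
          (by
            refine ⟨⟨⟨p, interior_subset hp⟩, hpM⟩, ?_⟩
            rw [← IsInducing.subtypeVal.isPreconnected_image, Subtype.image_preimage_coe,
              inter_eq_right.2 hMK]
            exact hM.isPreconnected)
          (continuous_subtype_val.continuousAt hMn)
        rw [mem_singleton_iff] at hw2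
        apply hpM'
        rw [hw2] at hw1
        exact hw1
    tfae_finish
  · tfae_have 1 → 2 := hdec
    tfae_have 2 → 3 := by
      rintro ⟨Q, _, q, hQ, hq, hT⟩
      exact ⟨Q, _, q, hQ, hq, fibres_of_jonesT hT⟩
    tfae_have 3 → 2 := by
      rintro ⟨Q, _, q, hQ, hq, hT⟩
      exact ⟨Q, _, q, hQ, hq, jonesT_of_fibres hQ hq hT⟩
    tfae_have 2 → 4 := by
      rintro ⟨Q, _, q, hQ, hq, hT⟩
      have hx : ∀ x : S, jonesT ({x} : Set S) = q ⁻¹' {q x} := by
        intro x
        rw [hT _ isClosed_singleton, image_singleton]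
      constructor
      · intro U hU
        have : {x : S | (jonesT ({x} : Set S) ∩ U).Nonempty} = q ⁻¹' (q '' U) := by
          ext x
          rw [mem_ofPred_eq, hx]
          constructor
          · rintro ⟨z, hz1, hz2⟩
            exact ⟨z, hz2, hz1⟩
          · rintro ⟨z, hz1, hz2⟩
            exact ⟨z, hz2, hz1⟩
        rw [this]
        exact (hq.2.1 _ hU).preimage hq.1
      · intro A hA
        rw [hT _ hA]
        ext z
        rw [mem_iUnion₂]
        constructor
        · rintro ⟨a, ha, haz⟩
          refine ⟨a, ha, ?_⟩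
          rw [hx]
          exact haz.symm
        · rintro ⟨a, ha, haz⟩
          rw [hx] at haz
          exact ⟨a, ha, haz.symm⟩
    tfae_have 4 → 1 := by
      rintro ⟨h1, h2⟩
      apply continuous_of_lsc
      intro U hU
      refine ⟨_, h1 U hU, fun A hA => ?_⟩
      rw [h2 A hA]
      constructor
      · rintro ⟨z, hz, hzU⟩
        rw [mem_iUnion₂] at hz
        obtain ⟨a, ha, hza⟩ := hz
        exact ⟨a, ha, z, hza, hzU⟩
      · rintro ⟨a, ha, z, hza, hzU⟩
        exact ⟨z, mem_iUnion₂.2 ⟨a, ha, hza⟩, hzU⟩
    tfae_finish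

end Pool.Agent.Results.MP_3a3191_gt.OpenMonotoneImage
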